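import Pool.Agent.Work.MP_b21e06_an.Unique
import Pool.Agent.Work.MP_b21e06_an.Lower

set_option autoImplicit false

open MeasureTheory Filter Topology Pool.Agent.Work.MP_b21e06_an
open scoped ENNReal NNReal

namespace Pool.Agent.Results.MP_b21e06_an.AlpernOptimal

/-- Alpern's strategy is well defined, and it is an optimal searcher strategy in the game with a
mobile hider. -/
theorem result :
    (∃! lam : ℤ → ℝ, ∃ v : ℝ≥0, IsAlpern lam v) ∧
    ∀ (lam : ℤ → ℝ) (v : ℝ≥0), IsAlpern lam v →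
      (⨆ τ : Hider, payoff (alpern lam) τ) = v ∧
      ∀ σ : Measure Searcher, IsProbabilityMeasure σ →
        (v : ℝ≥0∞) ≤ ⨆ (τ : Hider) (_ : τ.IsMeasurable), ∫⁻ s, payoff s τ ∂σ := by
  refine ⟨⟨lamV, ⟨_, isAlpern_lamV⟩, ?_⟩, ?_⟩
  · rintro lam ⟨v, hv⟩
    exact hv.eq.1
  · intro lam v hv
    obtain ⟨rfl, h2⟩ := hv.eq
    have hv' : (v : ℝ≥0∞) = ENNReal.ofReal (V 0) := by
      rw [← h2, ENNReal.ofReal_coe_nnreal]
    rw [hv']
    have hlow : ∀ σ : Measure Searcher, IsProbabilityMeasure σ →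
        ENNReal.ofReal (V 0) ≤ ⨆ (τ : Hider) (_ : τ.IsMeasurable), ∫⁻ s, payoff s τ ∂σ :=
      fun σ hσ => lower σ
    refine ⟨le_antisymm (iSup_le fun τ => payoff_le τ) ?_, hlow⟩
    -- a number that is never guessed
    obtain ⟨z, h1, h2, hz⟩ := exists_off
      (Set.countable_range fun A : List SignType => ((alpern lamV A : unitInterval) : ℝ))
      (zero_lt_one (α := ℝ))
    have h3 := payoff_still (h := ⟨z, h1.le, h2.le⟩) (fun A hA => hz ⟨A, by simp only [hA]⟩)
    rw [← h3]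
    exact le_iSup (fun τ : Hider => payoff (alpern lamV) τ) (Hider.still ⟨z, h1.le, h2.le⟩)

end Pool.Agent.Results.MP_b21e06_an.AlpernOptimal
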